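import Pool.Agent.V8H55.CP.Red

/-!
# Compactness of packing lattices
-/

namespace Pool.Agent.V8H55.CP

open MeasureTheory Set Filter Topology
open Pool.Agent.H349R2.Tet (V lat dt dt_eq Ov)
open Pool.Agent.TH219.DL (Body)
open Pool.Agent.V8H55.MD

theorem dt_cont : Continuous dt := by
  have h : dt = fun b : Fin 3 → V => b 0 0 * b 1 1 * b 2 2 - b 0 0 * b 1 2 * b 2 1
      - b 0 1 * b 1 0 * b 2 2 + b 0 1 * b 1 2 * b 2 0
      + b 0 2 * b 1 0 * b 2 1 - b 0 2 * b 1 1 * b 2 0 := by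
    funext b
    rw [dt_eq]
  rw [h]
  fun_prop

theorem cramer (c : Fin 3 → V) (z : Fin 3 → ℝ) :
    dt ![∑ i, z i • c i, c 1, c 2] = z 0 * dt c ∧ dt ![c 0, ∑ i, z i • c i, c 2] = z 1 * dt c ∧
    dt ![c 0, c 1, ∑ i, z i • c i] = z 2 * dt c := by
  refine ⟨?_, ?_, ?_⟩
  all_goals
    rw [dt_eq, dt_eq, Fin.sum_univ_three]
    simp
    ring

theorem dt_le {c : Fin 3 → V} {B : ℝ} (hB : 0 ≤ B) (h : ∀ i j, |c i j| ≤ B) : |dt c| ≤ 6 * B ^ 3 := by
  rw [dt_eq]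
  have hp : ∀ i j k l m n, |c i j * c k l * c m n| ≤ B ^ 3 := by
    intro i j k l m n
    rw [abs_mul, abs_mul]
    calc |c i j| * |c k l| * |c m n| ≤ B * B * B :=
          mul_le_mul (mul_le_mul (h i j) (h k l) (abs_nonneg _) hB) (h m n) (abs_nonneg _)
            (mul_nonneg hB hB)
      _ = B ^ 3 := by ring
  have h1 := abs_le.1 (hp 0 0 1 1 2 2)
  have h2 := abs_le.1 (hp 0 0 1 2 2 1)
  have h3 := abs_le.1 (hp 0 1 1 0 2 2)
  have h4 := abs_le.1 (hp 0 1 1 2 2 0)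
  have h5 := abs_le.1 (hp 0 2 1 0 2 1)
  have h6 := abs_le.1 (hp 0 2 1 1 2 0)
  rw [abs_le]
  constructor <;> linarith

theorem entry_le {x : V} {B : ℝ} (hB : 0 ≤ B) (h : ip x x ≤ B ^ 2) (j : Fin 3) : |x j| ≤ B := by
  apply abs_le_of_sq_le_sq _ hB
  refine le_trans ?_ h
  unfold ip
  have h0 := mul_self_nonneg (x 0)
  have h1 := mul_self_nonneg (x 1)
  have h2 := mul_self_nonneg (x 2)
  fin_cases j
  · show x 0 ^ 2 ≤ _
    nlinarith
  · show x 1 ^ 2 ≤ _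
    nlinarith
  · show x 2 ^ 2 ≤ _
    nlinarith

theorem comb_ne {c : Fin 3 → V} (hc : dt c ≠ 0) {z : Fin 3 → ℤ} (hz : z ≠ 0) :
    ∑ i, (z i : ℝ) • c i ≠ 0 := by
  intro h
  apply hz
  obtain ⟨h0, h1, h2⟩ := cramer c (fun i => (z i : ℝ))
  rw [h] at h0 h1 h2
  have e0 : dt ![0, c 1, c 2] = 0 := by rw [dt_eq]; simp
  have e1 : dt ![c 0, 0, c 2] = 0 := by rw [dt_eq]; simp
  have e2 : dt ![c 0, c 1, 0] = 0 := by rw [dt_eq]; simp
  rw [e0] at h0
  rw [e1] at h1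
  rw [e2] at h2
  funext i
  fin_cases i
  · have := (mul_eq_zero.1 h0.symm).resolve_right hc
    exact_mod_cast this
  · have := (mul_eq_zero.1 h1.symm).resolve_right hc
    exact_mod_cast this
  · have := (mul_eq_zero.1 h2.symm).resolve_right hc
    exact_mod_cast this

/-- **compactness** of the packing lattices of a sequence of bodies that exhausts `K` -/
theorem compact {K : Set V} {Kn : ℕ → Set V}
    (hint : ∀ x ∈ interior K, ∃ ε : ℝ, 0 < ε ∧ ∀ᶠ n in atTop, ∀ y, dist y x < ε →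
      y ∈ interior (Kn n))
    {b : ℕ → Fin 3 → V} (hb : ∀ n, dt (b n) ≠ 0)
    (hp : ∀ n, ∀ u ∈ lat (b n), u ≠ 0 → ¬ Ov (Kn n) u)
    {ρ Δ : ℝ} (hρ : 0 < ρ) (hlow : ∀ n, ∀ u ∈ lat (b n), u ≠ 0 → ρ ^ 2 ≤ ip u u)
    (hΔ : ∀ n, |dt (b n)| ≤ Δ) {u : ℕ → V} (hu : ∀ n, u n ∈ lat (b n)) (hu0 : ∀ n, u n ≠ 0)
    {R : ℝ} (hR : 0 ≤ R) (huR : ∀ n, ip (u n) (u n) ≤ R ^ 2) :
    ∃ (φ : ℕ → ℕ) (b' : Fin 3 → V) (w : V), StrictMono φ ∧ dt b' ≠ 0 ∧ |dt b'| ≤ Δ ∧
      (∀ u ∈ lat b', u ≠ 0 → ¬ Ov K u) ∧ w ∈ lat b' ∧ w ≠ 0 ∧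
      Tendsto (fun n => u (φ n)) atTop (𝓝 w) := by
  choose c hcE hc6 hc4 using fun n => reduce hρ (hb n) (hlow n)
  have hcd : ∀ n, dt (c n) ≠ 0 := by
    intro n h0
    have := (hcE n).2
    rw [h0, abs_zero] at this
    exact hb n (abs_eq_zero.1 this.symm)
  have hΔ0 : 0 ≤ Δ := (abs_nonneg _).trans (hΔ 0)
  have hsq : ∀ n, dt (c n) ^ 2 = dt (b n) ^ 2 := fun n => by rw [← sq_abs, (hcE n).2, sq_abs]
  have hsqΔ : ∀ n, dt (b n) ^ 2 ≤ Δ ^ 2 := fun n => by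
    rw [← sq_abs]; exact pow_le_pow_left₀ (abs_nonneg _) (hΔ n) 2
  -- bounds for the bases
  set B : ℝ := max R (3 * Δ / ρ ^ 2) with hB
  have hB0 : 0 ≤ B := le_max_of_le_left hR
  have hcB : ∀ n i, ip (c n i) (c n i) ≤ B ^ 2 := by
    intro n i
    have h1 := (hc4 n i).trans (mul_le_mul_of_nonneg_left (hsqΔ n) (by norm_num : (0 : ℝ) ≤ 8))
    have h2 : ip (c n i) (c n i) ≤ (3 * Δ / ρ ^ 2) ^ 2 := by
      rw [div_pow, le_div_iff₀ (by positivity)]
      nlinarith [sq_nonneg Δ]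
    exact h2.trans (pow_le_pow_left₀ (by positivity) (le_max_right _ _) 2)
  have huB : ∀ n, ip (u n) (u n) ≤ B ^ 2 := fun n =>
    (huR n).trans (pow_le_pow_left₀ hR (le_max_left _ _) 2)
  -- integer coordinates
  have hz : ∀ n, ∃ z : Fin 3 → ℤ, u n = ∑ i, (z i : ℝ) • c n i := by
    intro n
    have h1 := hu n
    rw [← (hcE n).1] at h1
    exact h1
  choose z hz using hz
  have hdlow : ∀ n, ρ ^ 3 / 3 ≤ |dt (c n)| := by
    intro n
    apply le_of_pow_le_pow_left₀ two_ne_zero (abs_nonneg _)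
    rw [sq_abs, hsq n]
    have := hc6 n
    nlinarith [sq_nonneg (ρ ^ 3)]
  set Z : ℝ := 18 * B ^ 3 / ρ ^ 3 with hZ
  have hzB : ∀ n i, |((z n i : ℤ) : ℝ)| ≤ Z := by
    intro n i
    obtain ⟨h0, h1, h2⟩ := cramer (c n) (fun i => (z n i : ℝ))
    rw [← hz n] at h0 h1 h2
    have key : ∀ (d : Fin 3 → V) (ζ : ℝ), (∀ i j, |d i j| ≤ B) → dt d = ζ * dt (c n) → |ζ| ≤ Z := by
      intro d ζ hd e
      have h3 := dt_le hB0 hd
      rw [e, abs_mul] at h3
      have h4 : |ζ| * (ρ ^ 3 / 3) ≤ |ζ| * |dt (c n)| :=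
        mul_le_mul_of_nonneg_left (hdlow n) (abs_nonneg _)
      rw [hZ, le_div_iff₀ (by positivity)]
      linarith
    have hce : ∀ i j, |c n i j| ≤ B := fun i j => entry_le hB0 (hcB n i) j
    have hue : ∀ j, |u n j| ≤ B := fun j => entry_le hB0 (huB n) j
    fin_cases i
    · refine key _ _ ?_ h0
      intro i j
      fin_cases i
      · exact hue j
      · exact hce 1 j
      · exact hce 2 j
    · refine key _ _ ?_ h1
      intro i j
      fin_cases i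
      · exact hce 0 j
      · exact hue j
      · exact hce 2 j
    · refine key _ _ ?_ h2
      intro i j
      fin_cases i
      · exact hce 0 j
      · exact hce 1 j
      · exact hue j
  -- a convergent subsequence
  set q : ℕ → (Fin 3 → V) × (Fin 3 → ℝ) := fun n => (c n, fun i => (z n i : ℝ)) with hq
  have hZ0 : 0 ≤ Z := by rw [hZ]; positivity
  have hbd : Bornology.IsBounded (Set.range q) := by
    rw [isBounded_iff_forall_norm_le]
    refine ⟨max B Z, ?_⟩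
    rintro _ ⟨n, rfl⟩
    rw [Prod.norm_def]
    apply max_le_max
    · rw [pi_norm_le_iff_of_nonneg hB0]
      intro i
      rw [pi_norm_le_iff_of_nonneg hB0]
      intro j
      exact entry_le hB0 (hcB n i) j
    · rw [pi_norm_le_iff_of_nonneg hZ0]
      intro i
      exact hzB n i
  obtain ⟨⟨c', z'⟩, -, φ, hφ, hlim⟩ := tendsto_subseq_of_bounded hbd (fun n => Set.mem_range_self n)
  have hlimc : Tendsto (fun n => c (φ n)) atTop (𝓝 c') :=
    (continuous_fst.tendsto (c', z')).comp hlim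
  have hlimz : Tendsto (fun n => (fun i => (z (φ n) i : ℝ))) atTop (𝓝 z') :=
    (continuous_snd.tendsto (c', z')).comp hlim
  have hlimd : Tendsto (fun n => dt (c (φ n))) atTop (𝓝 (dt c')) :=
    (dt_cont.tendsto c').comp hlimc
  -- determinant of the limit
  have hd6 : ρ ^ 6 ≤ 8 * dt c' ^ 2 := by
    refine ge_of_tendsto ((hlimd.pow 2).const_mul 8) (Eventually.of_forall fun n => ?_)
    rw [hsq]; exact hc6 (φ n)
  have hd0 : dt c' ≠ 0 := by
    intro h0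
    rw [h0] at hd6
    have : 0 < ρ ^ 6 := by positivity
    norm_num at hd6
    linarith
  have hdΔ : |dt c'| ≤ Δ := by
    refine le_of_tendsto hlimd.abs (Eventually.of_forall fun n => ?_)
    rw [(hcE (φ n)).2]; exact hΔ (φ n)
  -- the coordinates are eventually constant
  have hconst : ∀ i, ∀ᶠ n in atTop, |(z (φ n) i : ℝ) - z' i| < 1 / 2 := by
    intro i
    have h1 := ((continuous_apply i).tendsto z').comp hlimz
    have h2 := (h1.sub_const (z' i)).abs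
    rw [sub_self, abs_zero] at h2
    exact h2.eventually_lt_const (by norm_num)
  have hconst' : ∀ᶠ n in atTop, ∀ i, |(z (φ n) i : ℝ) - z' i| < 1 / 2 := by
    rw [eventually_all]; exact hconst
  obtain ⟨N, hN⟩ := eventually_atTop.1 hconst'
  set m : Fin 3 → ℤ := z (φ N) with hm
  have hzm : ∀ n, N ≤ n → z (φ n) = m := by
    intro n hn
    funext i
    have h1 := abs_lt.1 (hN n hn i)
    have h2 := abs_lt.1 (hN N le_rfl i)
    have h3 : |((z (φ n) i - m i : ℤ) : ℝ)| < 1 := by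
      push_cast
      rw [abs_lt]
      constructor <;> linarith
    have h4 : |z (φ n) i - m i| < 1 := by exact_mod_cast h3
    have h5 := Int.abs_lt_one_iff.1 h4
    linarith
  have hm0 : m ≠ 0 := by
    intro h0
    apply hu0 (φ N)
    rw [hz (φ N), ← hm, h0]
    simp
  have hcomb : ∀ k : Fin 3 → ℤ, Tendsto (fun n => ∑ i, (k i : ℝ) • c (φ n) i) atTop
      (𝓝 (∑ i, (k i : ℝ) • c' i)) := by
    intro k
    have hcont : Continuous fun c : Fin 3 → V => ∑ i, (k i : ℝ) • c i := by fun_prop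
    exact (hcont.tendsto c').comp hlimc
  refine ⟨φ, c', ∑ i, (m i : ℝ) • c' i, hφ, hd0, hdΔ, ?_, ⟨m, rfl⟩, comb_ne hd0 hm0, ?_⟩
  · rintro v ⟨k, rfl⟩ hv0 ⟨x, hx, hxv⟩
    have hk0 : k ≠ 0 := by
      rintro rfl
      apply hv0
      simp
    obtain ⟨e1, he1, h1⟩ := hint x hx
    obtain ⟨e2, he2, h2⟩ := hint _ hxv
    have h3 : ∀ᶠ n in atTop, dist (x - ∑ i, (k i : ℝ) • c (φ n) i) (x - ∑ i, (k i : ℝ) • c' i)
        < e2 := by
      have h4 := ((hcomb k).const_sub x)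
      exact (Metric.tendsto_nhds.1 h4) e2 he2
    obtain ⟨n, hn1, hn2, hn3⟩ := ((hφ.tendsto_atTop.eventually h1).and
      ((hφ.tendsto_atTop.eventually h2).and h3)).exists
    apply hp (φ n) (∑ i, (k i : ℝ) • c (φ n) i) (by rw [← (hcE (φ n)).1]; exact ⟨k, rfl⟩)
      (comb_ne (hcd _) hk0)
    exact ⟨x, hn1 x (by rw [dist_self]; exact he1), hn2 _ hn3⟩
  · refine (hcomb m).congr' ?_
    filter_upwards [eventually_ge_atTop N] with n hn
    rw [← hzm n hn]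
    exact (hz (φ n)).symm

end Pool.Agent.V8H55.CP
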