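import Pool.Agent.V8H55.CP.Min
import Pool.Agent.TH276.Torsion.Hull

/-!
# Exposed points, extreme points, and the number of vertices
-/

namespace Pool.Agent.V8H55.CP

open MeasureTheory Set Filter Topology
open scoped ENNReal
open Pool.Agent.H349R2.Tet (V lat dt dt_eq Ov)
open Pool.Agent.TH219.DL
open Pool.Agent.V8H55.MD

/-- the exposed points of `K` -/
def Expo (K : Set (Fin 3 → ℝ)) : Set (Fin 3 → ℝ) :=
  {p | p ∈ K ∧ ∃ v : Fin 3 → ℝ, ∀ y ∈ K, y ≠ p → ip v y < ip v p}

/-- the lattices that give densest lattice packings of `K` -/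
def DL (K : Set (Fin 3 → ℝ)) : Set (Set (Fin 3 → ℝ)) := {Λ | ∃ b, Densest K b ∧ Λ = lat b}

theorem sub_hull_expo {K : Set V} (hK : IsCompact K) : K ⊆ closure (convexHull ℝ (Expo K)) := by
  intro x0 hx0
  by_contra hx
  obtain ⟨f, s, h1, h2⟩ := geometric_hahn_banach_closed_point
    (convex_convexHull ℝ (Expo K)).closure isClosed_closure hx
  obtain ⟨w, hw⟩ := exists_ip f
  have hcont : Continuous fun y : V => ip y y :=
    ip_cont.comp (Continuous.prodMk continuous_id continuous_id)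
  obtain ⟨M, hM⟩ := (hK.image hcont).bddAbove
  have hM' : ∀ y ∈ K, ip y y ≤ M := fun y hy => hM ⟨y, hy, rfl⟩
  have h2' : 0 < ip w x0 - s := by rw [← hw]; linarith
  set R : ℝ := (|M| + 1) / (2 * (ip w x0 - s)) with hR
  have hR0 : 0 < R := by rw [hR]; positivity
  have hg : Continuous fun y : V => ip y y + 2 * R * ip w y :=
    hcont.add (continuous_const.mul (ipc w))
  obtain ⟨p, hp, hpm⟩ := hK.exists_isMaxOn ⟨x0, hx0⟩ hg.continuousOn
  have hpe : p ∈ Expo K := by
    refine ⟨hp, p + R • w, fun y hy hyp => ?_⟩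
    have h3 : ip y y + 2 * R * ip w y ≤ ip p p + 2 * R * ip w p := hpm hy
    have h4 : 0 < ip (y - p) (y - p) := ip_self_pos (sub_ne_zero.2 hyp)
    have h5 : ip (y - p) (y - p) = ip y y - 2 * ip p y + ip p p := by
      unfold ip
      simp only [Pi.sub_apply]
      ring
    have h6 : ∀ z, ip (p + R • w) z = ip p z + R * ip w z := by
      intro z
      unfold ip
      simp only [Pi.add_apply, Pi.smul_apply, smul_eq_mul]
      ring
    rw [h6, h6]
    nlinarith
  have h3 : ip x0 x0 + 2 * R * ip w x0 ≤ ip p p + 2 * R * ip w p := hpm hx0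
  have h4 : ip w p < s := by
    rw [← hw]
    exact h1 p (subset_closure (subset_convexHull ℝ _ hpe))
  have h5 : 2 * R * (ip w x0 - s) = |M| + 1 := by
    rw [hR]
    field_simp
  have h6 : 2 * R * (ip w x0 - ip w p) ≤ M := by
    have := hM' p hp
    have := ip_self_nonneg x0
    linarith
  have h7 : 2 * R * (ip w x0 - s) ≤ 2 * R * (ip w x0 - ip w p) :=
    mul_le_mul_of_nonneg_left (by linarith) (by positivity)
  have := le_abs_self M
  linarith

theorem expo_contact {K : Set V} (hK : Body K) (hmin : LocMin K) {p : V} (hp : p ∈ Expo K) :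
    ∃ (b : Fin 3 → V) (u : V), Densest K b ∧ u ∈ lat b ∧ u ≠ 0 ∧ p - u ∈ K ∧
      ∃ a d : V, ∀ x ∈ K, x - u ∈ K → ∃ t : ℝ, x = a + t • d := by
  obtain ⟨hp1, v, hv⟩ := hp
  exact exposed_contact hK hmin hp1 hv

/-- the contact points of densest lattice packings -/
def Con (K : Set V) : Set V :=
  {p | p ∈ K ∧ ∃ (b : Fin 3 → V) (u : V), Densest K b ∧ u ∈ lat b ∧ u ≠ 0 ∧ p - u ∈ K}

theorem con_closed {K : Set V} (hK : Body K) : IsClosed (Con K) := by
  apply isClosed_of_closure_subset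
  intro p hp
  obtain ⟨q, hq, hlim⟩ := mem_closure_iff_seq_limit.1 hp
  have hpK : p ∈ K := hK.1.isClosed.mem_of_tendsto hlim (Eventually.of_forall fun n => (hq n).1)
  choose b u hb hu hu0 hqu using fun n => (hq n).2
  obtain ⟨c, hc⟩ := hK.2.2
  obtain ⟨ρ, hρ, hball⟩ := Metric.isOpen_iff.1 isOpen_interior c hc
  obtain ⟨R0, hR0⟩ := hK.1.isBounded.subset_closedBall (0 : V)
  have hRu : ∀ n, ip (u n) (u n) ≤ (2 * (2 * max R0 0)) ^ 2 := by
    intro n
    apply ip_bd
    have h1 : ‖q n‖ ≤ max R0 0 :=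
      (mem_closedBall_zero_iff.1 (hR0 (hq n).1)).trans (le_max_left _ _)
    have h2 : ‖q n - u n‖ ≤ max R0 0 :=
      (mem_closedBall_zero_iff.1 (hR0 (hqu n))).trans (le_max_left _ _)
    have e : u n = q n - (q n - u n) := by abel
    rw [e]
    calc ‖q n - (q n - u n)‖ ≤ ‖q n‖ + ‖q n - u n‖ := norm_sub_le _ _
      _ ≤ _ := by linarith
  have hint : ∀ x ∈ interior K, ∃ ε : ℝ, 0 < ε ∧ ∀ᶠ n : ℕ in atTop, ∀ y, dist y x < ε →
      y ∈ interior ((fun _ => K) n) := by
    intro x hx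
    obtain ⟨ε, hε, h1⟩ := Metric.isOpen_iff.1 isOpen_interior x hx
    exact ⟨ε, hε, Eventually.of_forall fun n y hy => h1 hy⟩
  obtain ⟨φ, b', w, hφ, hb', hbd', hbp', hw, hw0, hlimu⟩ := compact (Kn := fun _ => K) hint
    (fun n => (densest_dt hK (hb n)).1) (fun n => (densest_dt hK (hb n)).2.1) hρ
    (fun n u hu hu0 => low (c := c) hρ (fun y hy => hball hy)
      ((densest_dt hK (hb n)).2.1 u hu hu0))
    (fun n => (densest_dt hK (hb n)).2.2.le) hu hu0 (by positivity) hRu
  refine ⟨hpK, b', w, densest_of hK hb' hbp' hbd', hw, hw0, ?_⟩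
  have hlim2 : Tendsto (fun n => q (φ n) - u (φ n)) atTop (𝓝 (p - w)) :=
    (hlim.comp hφ.tendsto_atTop).sub hlimu
  exact hK.1.isClosed.mem_of_tendsto hlim2 (Eventually.of_forall fun n => hqu (φ n))

/-- **extreme points are contact points** -/
theorem extreme_contact {K : Set V} (hK : Body K) (hmin : LocMin K) {p : V}
    (hp : p ∈ K.extremePoints ℝ) : p ∈ Con K := by
  have h1 : Expo K ⊆ Con K := by
    intro q hq
    obtain ⟨b, u, h1, h2, h3, h4, -⟩ := expo_contact hK hmin hq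
    exact ⟨hq.1, b, u, h1, h2, h3, h4⟩
  have h2 : IsCompact (Con K) := hK.1.of_isClosed_subset (con_closed hK) fun q hq => hq.1
  have h3 := Pool.Agent.TH276.Torsion.isCompact_convexHull_of_isCompact h2
  have h4 : K ⊆ convexHull ℝ (Con K) :=
    (sub_hull_expo hK.1).trans (closure_minimal (convexHull_mono h1) h3.isClosed)
  have h5 : convexHull ℝ (Con K) = K :=
    Set.Subset.antisymm (convexHull_min (fun q hq => hq.1) hK.2.1) h4
  rw [← h5] at hp
  exact extremePoints_convexHull_subset hp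

theorem two_of {S : Set V} (h : ∀ x ∈ S, ∀ y ∈ S, ∀ z ∈ S, x = y ∨ x = z ∨ y = z) :
    S.Finite ∧ S.ncard ≤ 2 := by
  have key : ∃ x y : V, S ⊆ {x, y} := by
    rcases S.eq_empty_or_nonempty with he | ⟨x, hx⟩
    · exact ⟨0, 0, by rw [he]; exact Set.empty_subset _⟩
    · by_cases hy : ∃ y ∈ S, y ≠ x
      · obtain ⟨y, hy, hyx⟩ := hy
        refine ⟨x, y, fun z hz => ?_⟩
        rcases h x hx y hy z hz with h1 | h1 | h1
        · exact absurd h1.symm hyx
        · exact Or.inl h1.symm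
        · exact Or.inr h1.symm
      · push Not at hy
        exact ⟨x, x, fun z hz => Or.inl (hy z hz)⟩
  obtain ⟨x, y, hS⟩ := key
  have hf : ({x, y} : Set V).Finite := Set.toFinite _
  refine ⟨hf.subset hS, (Set.ncard_le_ncard hS hf).trans ?_⟩
  refine (Set.ncard_insert_le _ _).trans ?_
  rw [Set.ncard_singleton]

/-- a line carries at most two exposed points -/
theorem line_two {K : Set V} {a d : V} {S : Set V} (hS : S ⊆ Expo K)
    (hl : ∀ x ∈ S, ∃ t : ℝ, x = a + t • d) : S.Finite ∧ S.ncard ≤ 2 := by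
  apply two_of
  intro x hx y hy z hz
  by_contra hcon
  push Not at hcon
  obtain ⟨hxy, hxz, hyz⟩ := hcon
  -- the middle one of three different points of a line is not exposed
  have mid : ∀ p ∈ S, ∀ q ∈ S, ∀ r ∈ S, ∀ t1 t2 t3 : ℝ, p = a + t1 • d → q = a + t2 • d →
      r = a + t3 • d → t1 < t2 → t2 < t3 → False := by
    intro p hp q hq r hr t1 t2 t3 e1 e2 e3 h12 h23
    obtain ⟨hqK, v, hv⟩ := hS hq
    have hpv := hv p (hS hp).1
    have hrv := hv r (hS hr).1
    have i1 : ip v p = ip v a + t1 * ip v d := by rw [e1, ip_add, ip_smul]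
    have i2 : ip v q = ip v a + t2 * ip v d := by rw [e2, ip_add, ip_smul]
    have i3 : ip v r = ip v a + t3 * ip v d := by rw [e3, ip_add, ip_smul]
    by_cases hd : d = 0
    · -- impossible as then all points coincide
      have h1 : x = a := by obtain ⟨t, ht⟩ := hl x hx; rw [ht, hd, smul_zero, add_zero]
      have h2 : y = a := by obtain ⟨t, ht⟩ := hl y hy; rw [ht, hd, smul_zero, add_zero]
      exact hxy (h1.trans h2.symm)
    · have n1 : p ≠ q := by
        intro e
        rw [e1, e2] at e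
        have h3 : (t2 - t1) • d = 0 := by
          have h4 := add_left_cancel e
          rw [sub_smul, h4, sub_self]
        rcases smul_eq_zero.1 h3 with h | h
        · linarith
        · exact hd h
      have n3 : r ≠ q := by
        intro e
        rw [e3, e2] at e
        have h3 : (t3 - t2) • d = 0 := by
          have h4 := add_left_cancel e
          rw [sub_smul, h4, sub_self]
        rcases smul_eq_zero.1 h3 with h | h
        · linarith
        · exact hd h
      have k1 := hpv n1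
      have k3 := hrv n3
      rw [i1, i2] at k1
      rw [i3, i2] at k3
      have m1 : 0 < (t2 - t1) * ip v d := by linarith
      have m3 : 0 < (t2 - t3) * ip v d := by linarith
      have hpos : 0 < ip v d := (mul_pos_iff_of_pos_left (by linarith)).1 m1
      nlinarith
  obtain ⟨t1, e1⟩ := hl x hx
  obtain ⟨t2, e2⟩ := hl y hy
  obtain ⟨t3, e3⟩ := hl z hz
  have n12 : t1 ≠ t2 := by rintro rfl; exact hxy (e1.trans e2.symm)
  have n13 : t1 ≠ t3 := by rintro rfl; exact hxz (e1.trans e3.symm)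
  have n23 : t2 ≠ t3 := by rintro rfl; exact hyz (e2.trans e3.symm)
  rcases lt_or_gt_of_ne n12 with h | h <;> rcases lt_or_gt_of_ne n13 with h' | h' <;>
    rcases lt_or_gt_of_ne n23 with h'' | h''
  · exact mid x hx y hy z hz _ _ _ e1 e2 e3 h h''
  · exact mid x hx z hz y hy _ _ _ e1 e3 e2 h' h''
  · linarith
  · exact mid z hz x hx y hy _ _ _ e3 e1 e2 h' h
  · exact mid y hy x hx z hz _ _ _ e2 e1 e3 h h'
  · linarith
  · exact mid y hy z hz x hx _ _ _ e2 e3 e1 h'' h'
  · exact mid z hz y hy x hx _ _ _ e3 e2 e1 h'' h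

/-- contact vectors are incongruent modulo 3 -/
theorem mod_three {K : Set V} (hK : Body K) {b : Fin 3 → V}
    (hp : ∀ u ∈ lat b, u ≠ 0 → ¬ Ov K u) {z z' : Fin 3 → ℤ}
    (hz : ∃ x ∈ K, x - ∑ i, (z i : ℝ) • b i ∈ K) (hz' : ∃ x ∈ K, x - ∑ i, (z' i : ℝ) • b i ∈ K)
    (h3 : ∀ i, ((z i : ℤ) : ZMod 3) = ((z' i : ℤ) : ZMod 3)) :
    ∑ i, (z i : ℝ) • b i = ∑ i, (z' i : ℝ) • b i := by
  by_contra hne
  obtain ⟨x, hx, hxu⟩ := hz
  obtain ⟨y, hy, hyu⟩ := hz'
  obtain ⟨c, hc⟩ := hK.2.2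
  have hdiv : ∀ i, ∃ k : ℤ, z i - z' i = 3 * k := by
    intro i
    have h1 := (ZMod.intCast_eq_intCast_iff_dvd_sub (z' i) (z i) 3).1 (h3 i).symm
    obtain ⟨k, hk⟩ := h1
    exact ⟨k, by simpa using hk⟩
  choose k hk using hdiv
  set u := ∑ i, (z i : ℝ) • b i with hu
  set u' := ∑ i, (z' i : ℝ) • b i with hu'
  set w := ∑ i, (k i : ℝ) • b i with hw
  have h4 : u - u' = (3 : ℝ) • w := by
    rw [hu, hu', hw, Finset.smul_sum, ← Finset.sum_sub_distrib]
    refine Finset.sum_congr rfl fun i _ => ?_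
    rw [← sub_smul, smul_smul]
    congr 1
    have := hk i
    exact_mod_cast this
  have hw0 : w ≠ 0 := by
    intro h0
    rw [h0, smul_zero, sub_eq_zero] at h4
    exact hne h4
  have hmem : ∀ a1 ∈ K, ∀ a2 ∈ K, (1 / 3 : ℝ) • (a1 + a2 + c) ∈ interior K := by
    intro a1 h1 a2 h2
    have hm : (1 / 2 : ℝ) • a1 + (1 / 2 : ℝ) • a2 ∈ K :=
      hK.2.1 h1 h2 (by norm_num) (by norm_num) (by norm_num)
    have h5 := hK.2.1.combo_self_interior_mem_interior hm hc (a := 2 / 3) (b := 1 / 3)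
      (by norm_num) (by norm_num) (by norm_num)
    have e : (1 / 3 : ℝ) • (a1 + a2 + c) =
        (2 / 3 : ℝ) • ((1 / 2 : ℝ) • a1 + (1 / 2 : ℝ) • a2) + (1 / 3 : ℝ) • c := by module
    rw [e]; exact h5
  apply hp w ⟨k, rfl⟩ hw0
  refine ⟨_, hmem x hx (y - u') hyu, ?_⟩
  have e : (1 / 3 : ℝ) • (x + (y - u') + c) - w = (1 / 3 : ℝ) • ((x - u) + y + c) := by
    have h6 : w = (1 / 3 : ℝ) • (u - u') := by
      rw [h4, smul_smul]; norm_num
    rw [h6]; module
  rw [e]
  exact hmem _ hxu y hy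

/-- the contact vectors of the packing with the lattice `Λ` -/
def CV (K : Set V) (Λ : Set V) : Set V := {u | u ∈ Λ ∧ u ≠ 0 ∧ ∃ x ∈ K, x - u ∈ K}

theorem cv_card {K : Set V} (hK : Body K) {b : Fin 3 → V}
    (hp : ∀ u ∈ lat b, u ≠ 0 → ¬ Ov K u) : (CV K (lat b)).Finite ∧ (CV K (lat b)).ncard ≤ 26 := by
  classical
  have hex : ∀ u : V, ∃ z : Fin 3 → ℤ, u ∈ lat b → u = ∑ i, (z i : ℝ) • b i := by
    intro u
    by_cases h : u ∈ lat b
    · obtain ⟨z, hz⟩ := h
      exact ⟨z, fun _ => hz⟩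
    · exact ⟨0, fun h' => absurd h' h⟩
  choose z hz using hex
  obtain ⟨c, hc⟩ := hK.2.2
  set g : V → (Fin 3 → ZMod 3) := fun u i => ((z u i : ℤ) : ZMod 3) with hg
  have hinj : Set.InjOn g (CV K (lat b)) := by
    intro u hu u' hu' h
    have h1 := hz u hu.1
    have h2 := hz u' hu'.1
    have h3 := mod_three hK hp (z := z u) (z' := z u') (by rw [← h1]; exact hu.2.2)
      (by rw [← h2]; exact hu'.2.2) (fun i => congrFun h i)
    rw [h1, h2, h3]
  have hne : ∀ u ∈ CV K (lat b), g u ≠ 0 := by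
    intro u hu h
    have h1 := hz u hu.1
    have h3 := mod_three hK hp (z := z u) (z' := 0) (by rw [← h1]; exact hu.2.2)
      ⟨c, interior_subset hc, by simpa using interior_subset hc⟩ (fun i => by
        have := congrFun h i
        simpa [hg] using this)
    rw [← h1] at h3
    apply hu.2.1
    rw [h3]; simp
  have himg : g '' CV K (lat b) ⊆ ((Finset.univ.erase (0 : Fin 3 → ZMod 3) :
      Finset (Fin 3 → ZMod 3)) : Set (Fin 3 → ZMod 3)) := by
    rintro _ ⟨u, hu, rfl⟩
    simp only [Finset.coe_erase, Finset.coe_univ, Set.mem_sdiff, Set.mem_univ, true_and,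
      Set.mem_singleton_iff]
    exact hne u hu
  have hfin : (CV K (lat b)).Finite := Set.Finite.of_finite_image (Set.toFinite _) hinj
  refine ⟨hfin, ?_⟩
  rw [← hinj.ncard_image]
  refine (Set.ncard_le_ncard himg (Set.toFinite _)).trans ?_
  rw [Set.ncard_coe_finset, Finset.card_erase_of_mem (Finset.mem_univ _)]
  simp

/-- the exposed points of `K` in the contact set of `u`, if this is contained in a line -/
def EP (K : Set V) (u : V) : Set V :=
  {p | p ∈ Expo K ∧ p - u ∈ K ∧ ∃ a d : V, ∀ x ∈ K, x - u ∈ K → ∃ t : ℝ, x = a + t • d}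

theorem ep_card (K : Set V) (u : V) : (EP K u).Finite ∧ (EP K u).ncard ≤ 2 := by
  rcases (EP K u).eq_empty_or_nonempty with he | ⟨p, hp⟩
  · rw [he]; simp
  · obtain ⟨-, -, a, d, hl⟩ := hp
    exact line_two (fun q hq => hq.1) (fun q hq => hl q hq.1.1 hq.2.1)

theorem expo_sub {K : Set V} (hK : Body K) (hmin : LocMin K) :
    Expo K ⊆ ⋃ Λ ∈ DL K, ⋃ u ∈ CV K Λ, EP K u := by
  intro p hp
  obtain ⟨b, u, h1, h2, h3, h4, h5⟩ := expo_contact hK hmin hp
  refine Set.mem_biUnion (x := lat b) ⟨b, h1, rfl⟩ (Set.mem_biUnion (x := u) ?_ ?_)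
  · exact ⟨h2, h3, p, hp.1, h4⟩
  · exact ⟨hp, h4, h5⟩

theorem expo_countable {K : Set V} (hK : Body K) (hmin : LocMin K) (hc : (DL K).Countable) :
    (Expo K).Countable := by
  refine Set.Countable.mono (expo_sub hK hmin) (hc.biUnion fun Λ hΛ => ?_)
  obtain ⟨b, hb, rfl⟩ := hΛ
  exact (cv_card hK (densest_dt hK hb).2.1).1.countable.biUnion fun u _ =>
    (ep_card K u).1.countable

/-- the number of vertices -/
theorem expo_card {K : Set V} (hK : Body K) (hmin : LocMin K) (hc : (DL K).Finite) :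
    (Expo K).Finite ∧ (Expo K).ncard ≤ 52 * (DL K).ncard := by
  classical
  have hCV : ∀ Λ, (if Λ ∈ DL K then CV K Λ else ∅).Finite := by
    intro Λ
    split_ifs with h
    · obtain ⟨b, hb, rfl⟩ := h
      exact (cv_card hK (densest_dt hK hb).2.1).1
    · exact Set.finite_empty
  set F : Finset V := hc.toFinset.biUnion fun Λ => (hCV Λ).toFinset.biUnion fun u =>
    (ep_card K u).1.toFinset with hF
  have hsub : Expo K ⊆ (F : Set V) := by
    intro p hp
    have h1 := expo_sub hK hmin hp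
    rw [Set.mem_iUnion₂] at h1
    obtain ⟨Λ, hΛ, h2⟩ := h1
    rw [Set.mem_iUnion₂] at h2
    obtain ⟨u, hu, h3⟩ := h2
    rw [hF, Finset.mem_coe, Finset.mem_biUnion]
    refine ⟨Λ, hc.mem_toFinset.2 hΛ, ?_⟩
    rw [Finset.mem_biUnion]
    refine ⟨u, (hCV Λ).mem_toFinset.2 ?_, (ep_card K u).1.mem_toFinset.2 h3⟩
    rw [if_pos hΛ]; exact hu
  have hFc : F.card ≤ (DL K).ncard * (26 * 2) := by
    rw [Set.ncard_eq_toFinset_card _ hc]
    refine Finset.card_biUnion_le_card_mul _ _ _ fun Λ hΛ => ?_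
    have hΛ' := hc.mem_toFinset.1 hΛ
    refine (Finset.card_biUnion_le_card_mul _ _ 2 fun u _ => ?_).trans ?_
    · rw [← Set.ncard_eq_toFinset_card _ (ep_card K u).1]
      exact (ep_card K u).2
    · apply Nat.mul_le_mul_right
      rw [← Set.ncard_eq_toFinset_card _ (hCV Λ), if_pos hΛ']
      obtain ⟨b, hb, rfl⟩ := hΛ'
      exact (cv_card hK (densest_dt hK hb).2.1).2
  refine ⟨F.finite_toSet.subset hsub, ?_⟩
  calc (Expo K).ncard ≤ (F : Set V).ncard := Set.ncard_le_ncard hsub F.finite_toSet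
    _ = F.card := Set.ncard_coe_finset F
    _ ≤ (DL K).ncard * (26 * 2) := hFc
    _ = 52 * (DL K).ncard := by ring

theorem hull_expo {K : Set V} (hK : Body K) (hf : (Expo K).Finite) :
    K = convexHull ℝ (Expo K) := by
  apply Set.Subset.antisymm
  · exact (sub_hull_expo hK.1).trans
      (closure_minimal Set.Subset.rfl (hf.isCompact_convexHull ℝ).isClosed)
  · exact convexHull_min (fun q hq => hq.1) hK.2.1

theorem locMin_of_min {K : Set V} (h : dL K = mn dL) : LocMin K :=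
  ⟨1, one_pos, fun K' hK' _ _ => by rw [h]; exact iInf₂_le K' hK'⟩

end Pool.Agent.V8H55.CP
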