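import Pool.Agent.V8H55.CP.Touch
import Pool.Agent.V8H55.MD.Main

/-!
# Contact points of local minimisers of the lattice packing density
-/

namespace Pool.Agent.V8H55.CP

open MeasureTheory Set Filter Topology
open scoped ENNReal
open Pool.Agent.H349R2.Tet (V lat dt dt_eq Ov Packs dens deltaL packs_iff dens_eq deltaL_le)
open Pool.Agent.TH219.DL
open Pool.Agent.V8H55.MD

/-- the lattice generated by `b` gives a densest lattice packing of `K` -/
def Densest (K : Set (Fin 3 → ℝ)) (b : Fin 3 → (Fin 3 → ℝ)) : Prop :=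
  LinearIndependent ℝ b ∧ IsPack K (famL b) ∧ den K (famL b) = dL K

/-- the bodies inside `K` and close to `K` have at least the lattice packing density of `K` -/
def LocMin (K : Set (Fin 3 → ℝ)) : Prop :=
  ∃ η : ℝ, 0 < η ∧ ∀ K' : Set (Fin 3 → ℝ), Body K' → K' ⊆ K →
    (∀ y ∈ K, ∃ x ∈ K', dist x y < η) → dL K ≤ dL K'

/-- the least determinant of a packing lattice -/
noncomputable def cd (K : Set V) : ℝ := (volume K / dL K).toReal

theorem cd_pos {K : Set V} (hK : Body K) : 0 < cd K := by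
  unfold cd
  apply ENNReal.toReal_pos
  · exact (ENNReal.div_pos (vol_ne_zero hK) (dL_ne_top hK)).ne'
  · exact (ENNReal.div_lt_top (vol_ne_top hK) (dL_pos hK)).ne

theorem vol_eq {K : Set V} (hK : Body K) : volume K = dL K * ENNReal.ofReal (cd K) := by
  unfold cd
  rw [ENNReal.ofReal_toReal (ENNReal.div_lt_top (vol_ne_top hK) (dL_pos hK)).ne,
    ENNReal.mul_div_cancel (dL_pos hK) (dL_ne_top hK)]

theorem ofReal_abs_ne {x : ℝ} (hx : x ≠ 0) : ENNReal.ofReal |x| ≠ 0 := by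
  rw [ne_eq, ENNReal.ofReal_eq_zero, not_le]
  exact abs_pos.2 hx

theorem cd_le {K : Set V} (hK : Body K) {b : Fin 3 → V} (hb : dt b ≠ 0)
    (hp : ∀ u ∈ lat b, u ≠ 0 → ¬ Ov K u) : cd K ≤ |dt b| := by
  have h1 : Packs K b := (packs_iff K b).2 ⟨hb, hp⟩
  have h2 : dens K b ≤ dL K := by
    rw [dL_eq]
    exact le_iSup₂_of_le b h1 le_rfl
  rw [dens_eq b h1.1 _ hK.1, ENNReal.div_le_iff (ofReal_abs_ne hb) ENNReal.ofReal_ne_top,
    vol_eq hK] at h2
  have h4 : ENNReal.ofReal (cd K) ≤ ENNReal.ofReal |dt b| :=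
    (ENNReal.mul_le_mul_iff_right (dL_pos hK) (dL_ne_top hK)).1 h2
  exact (ENNReal.ofReal_le_ofReal_iff (abs_nonneg _)).1 h4

theorem densest_of {K : Set V} (hK : Body K) {b : Fin 3 → V} (hb : dt b ≠ 0)
    (hp : ∀ u ∈ lat b, u ≠ 0 → ¬ Ov K u) (hd : |dt b| ≤ cd K) : Densest K b := by
  have h1 : Packs K b := (packs_iff K b).2 ⟨hb, hp⟩
  have h2 := (packs_famL K b).2 h1
  refine ⟨h2.1, h2.2, ?_⟩
  rw [den_famL, dens_eq b h1.1 _ hK.1, le_antisymm hd (cd_le hK hb hp), vol_eq hK]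
  refine ENNReal.mul_div_cancel_right ?_ ENNReal.ofReal_ne_top
  rw [ne_eq, ENNReal.ofReal_eq_zero, not_le]
  exact cd_pos hK

theorem densest_dt {K : Set V} (hK : Body K) {b : Fin 3 → V} (h : Densest K b) :
    dt b ≠ 0 ∧ (∀ u ∈ lat b, u ≠ 0 → ¬ Ov K u) ∧ |dt b| = cd K := by
  have h1 : Packs K b := (packs_famL K b).1 ⟨h.1, h.2.1⟩
  obtain ⟨h2, h3⟩ := (packs_iff K b).1 h1
  refine ⟨h2, h3, ?_⟩
  have h4 := h.2.2
  rw [den_famL, dens_eq b h1.1 _ hK.1] at h4
  unfold cd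
  rw [← h4, ENNReal.div_eq_inv_mul, ENNReal.inv_div (Or.inl ENNReal.ofReal_ne_top)
    (Or.inl (ofReal_abs_ne h2)), ENNReal.div_mul_cancel (vol_ne_zero hK) (vol_ne_top hK),
    ENNReal.toReal_ofReal (abs_nonneg _)]

theorem exists_better {K K' : Set V} (hK : Body K) (hK' : Body K') (hd : dL K ≤ dL K')
    (hv : volume K' < volume K) :
    ∃ b : Fin 3 → V, dt b ≠ 0 ∧ (∀ u ∈ lat b, u ≠ 0 → ¬ Ov K' u) ∧ |dt b| < cd K := by
  by_contra hcon
  push Not at hcon
  have h1 := deltaL_le hK'.1 (v := (volume K').toReal) ENNReal.toReal_nonneg le_rfl (cd_pos hK)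
    hcon
  rw [← dL_eq] at h1
  have h2 : dL K * ENNReal.ofReal (cd K) ≤
      ENNReal.ofReal ((volume K').toReal / cd K) * ENNReal.ofReal (cd K) := by
    gcongr
    exact hd.trans h1
  rw [← vol_eq hK, ← ENNReal.ofReal_mul (div_nonneg ENNReal.toReal_nonneg (cd_pos hK).le),
    div_mul_cancel₀ _ (cd_pos hK).ne', ENNReal.ofReal_toReal (vol_ne_top hK')] at h2
  exact absurd (h2.trans_lt hv) (lt_irrefl _)

theorem int_lt {K : Set V} {p v : V} (hexp : ∀ y ∈ K, y ≠ p → ip v y < ip v p) {x : V}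
    (hx : x ∈ interior K) : ip v x < ip v p := by
  by_cases h : x = p
  · exfalso
    subst h
    obtain ⟨r, hr, hb⟩ := Metric.isOpen_iff.1 isOpen_interior x hx
    obtain ⟨y, hy, hyx⟩ := (dense_compl_singleton x).inter_open_nonempty _ Metric.isOpen_ball
      ⟨x, Metric.mem_ball_self hr⟩
    have hyx' : y ≠ x := hyx
    have h1 := hexp y (interior_subset (hb hy)) hyx'
    have hz : x + (x - y) ∈ Metric.ball x r := by
      rw [Metric.mem_ball] at hy ⊢
      rw [dist_self_add_left, ← dist_eq_norm, dist_comm]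
      exact hy
    have h2 := hexp _ (interior_subset (hb hz)) (fun e => hyx' (by
      have : x - y = 0 := by
        have h3 := congrArg (fun z => z - x) e
        simpa using h3
      exact (sub_eq_zero.1 this).symm))
    rw [ip_add, ip_sub] at h2
    linarith
  · exact hexp x (interior_subset hx) h

theorem Kc_body {K : Set V} (hK : Body K) {v : V} {h : ℝ}
    (hne : ∃ x ∈ interior K, ip v x < h) : Body (Kc K v h) := by
  obtain ⟨x, hx, hxh⟩ := hne
  refine ⟨hK.1.inter_right (isClosed_le (ipc v) continuous_const), hK.2.1.inter ?_,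
    ⟨x, mem_int_Kc hx hxh⟩⟩
  intro y hy z hz a b ha hb hab
  have hy' : ip v y ≤ h := hy
  have hz' : ip v z ≤ h := hz
  show ip v (a • y + b • z) ≤ h
  rw [ip_add, ip_smul, ip_smul]
  calc a * ip v y + b * ip v z ≤ a * h + b * h :=
        add_le_add (mul_le_mul_of_nonneg_left hy' ha) (mul_le_mul_of_nonneg_left hz' hb)
    _ = h := by rw [← add_mul, hab, one_mul]

theorem Kc_vol {K : Set V} (hK : Body K) {v p : V} {h : ℝ} (hB : Body (Kc K v h)) (hp : p ∈ K)
    (hph : h < ip v p) : volume (Kc K v h) < volume K := by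
  by_contra hcon
  push Not at hcon
  have h1 := eq_of_vol hB hK inter_subset_left hcon
  have h2 : p ∈ Kc K v h := by rw [h1]; exact hp
  exact absurd h2.2 (not_le.2 hph)

theorem Kc_near {K : Set V} (hK : Body K) {p v : V} (hp : p ∈ K)
    (hexp : ∀ y ∈ K, y ≠ p → ip v y < ip v p) {η : ℝ} (hη : 0 < η) :
    ∃ ε0 : ℝ, 0 < ε0 ∧ (∃ x ∈ interior K, ip v x < ip v p - ε0) ∧
      ∀ ε, ε ≤ ε0 → ∀ y ∈ K, ∃ x ∈ Kc K v (ip v p - ε), dist x y < η := by
  obtain ⟨c, hc⟩ := hK.2.2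
  obtain ⟨ε1, hε1, hcap⟩ := cap_small hK.1 hexp (half_pos hη)
  set t : ℝ := min (1 / 2) (η / (4 * (1 + ‖c - p‖))) with ht
  have hn : 0 < 1 + ‖c - p‖ := by positivity
  have ht0 : 0 < t := by rw [ht]; positivity
  have ht1 : t < 1 := lt_of_le_of_lt (min_le_left _ _) (by norm_num)
  set x0 : V := (1 - t) • p + t • c with hx0
  have hx0i : x0 ∈ interior K :=
    hK.2.1.combo_self_interior_mem_interior hp hc (by linarith) ht0 (by ring)
  have hx0v := int_lt hexp hx0i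
  have hd0 : dist x0 p < η / 2 := by
    rw [dist_eq_norm]
    have e : x0 - p = t • (c - p) := by rw [hx0]; module
    rw [e, norm_smul, Real.norm_eq_abs, abs_of_pos ht0]
    have h1 : t * (4 * (1 + ‖c - p‖)) ≤ η := by
      rw [← le_div_iff₀ (by positivity)]; exact min_le_right _ _
    nlinarith [norm_nonneg (c - p)]
  refine ⟨min ε1 ((ip v p - ip v x0) / 2), lt_min hε1 (by linarith), ⟨x0, hx0i, ?_⟩, ?_⟩
  · have := min_le_right ε1 ((ip v p - ip v x0) / 2)
    linarith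
  · intro ε hε y hy
    by_cases h : ip v y ≤ ip v p - ε
    · exact ⟨y, ⟨hy, h⟩, by rw [dist_self]; exact hη⟩
    · push Not at h
      have h1 : ε ≤ ε1 := hε.trans (min_le_left _ _)
      have h2 : ε ≤ (ip v p - ip v x0) / 2 := hε.trans (min_le_right _ _)
      have h3 := hcap y hy (by linarith)
      refine ⟨x0, ⟨interior_subset hx0i, (show ip v x0 ≤ ip v p - ε by linarith)⟩, ?_⟩
      calc dist x0 y ≤ dist x0 p + dist p y := dist_triangle _ _ _
        _ < η := by rw [dist_comm p y]; linarith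

theorem low {A : Set V} {c : V} {e : ℝ} (he : 0 < e)
    (hc : ∀ y, dist y c < e → y ∈ interior A) {u : V} (h : ¬ Ov A u) : e ^ 2 ≤ ip u u := by
  by_contra hcon
  push Not at hcon
  apply h
  refine ⟨c, hc c (by rw [dist_self]; exact he), hc _ ?_⟩
  rw [dist_eq_norm, sub_sub_cancel_left, norm_neg, pi_norm_lt_iff he]
  intro j
  rw [Real.norm_eq_abs]
  apply abs_lt_of_sq_lt_sq _ he.le
  refine lt_of_le_of_lt ?_ hcon
  unfold ip
  have h0 := mul_self_nonneg (u 0)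
  have h1 := mul_self_nonneg (u 1)
  have h2 := mul_self_nonneg (u 2)
  fin_cases j
  · show u 0 ^ 2 ≤ _
    nlinarith
  · show u 1 ^ 2 ≤ _
    nlinarith
  · show u 2 ^ 2 ≤ _
    nlinarith

theorem ip_bd {x : V} {R : ℝ} (h : ‖x‖ ≤ R) : ip x x ≤ (2 * R) ^ 2 := by
  have hj : ∀ j, x j ^ 2 ≤ R ^ 2 := fun j => by
    rw [← sq_abs]
    exact pow_le_pow_left₀ (abs_nonneg _) ((norm_le_pi_norm x j).trans h) 2
  unfold ip
  nlinarith [hj 0, hj 1, hj 2, sq_nonneg R]

theorem ov_bd {K : Set V} (hK : IsCompact K) : ∃ R : ℝ, 0 ≤ R ∧ ∀ u, Ov K u → ip u u ≤ R ^ 2 := by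
  obtain ⟨R0, hR0⟩ := hK.isBounded.subset_closedBall (0 : V)
  refine ⟨2 * (2 * max R0 0), by positivity, ?_⟩
  rintro u ⟨x, hx, hxu⟩
  apply ip_bd
  have h1 : ‖x‖ ≤ max R0 0 :=
    (mem_closedBall_zero_iff.1 (hR0 (interior_subset hx))).trans (le_max_left _ _)
  have h2 : ‖x - u‖ ≤ max R0 0 :=
    (mem_closedBall_zero_iff.1 (hR0 (interior_subset hxu))).trans (le_max_left _ _)
  have e : u = x - (x - u) := by abel
  rw [e]
  calc ‖x - (x - u)‖ ≤ ‖x‖ + ‖x - u‖ := norm_sub_le _ _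
    _ ≤ _ := by linarith

/-- **exposed points of local minimisers are contact points** -/
theorem exposed_contact {K : Set V} (hK : Body K) (hmin : LocMin K) {p v : V} (hp : p ∈ K)
    (hexp : ∀ y ∈ K, y ≠ p → ip v y < ip v p) :
    ∃ (b : Fin 3 → V) (u : V), Densest K b ∧ u ∈ lat b ∧ u ≠ 0 ∧ p - u ∈ K ∧
      ∃ a d : V, ∀ x ∈ K, x - u ∈ K → ∃ t : ℝ, x = a + t • d := by
  obtain ⟨η, hη, hloc⟩ := hmin
  obtain ⟨ε0, hε0, ⟨c, hc, hcv⟩, hnear⟩ := Kc_near hK hp hexp hη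
  set e : ℕ → ℝ := fun n => ε0 / (n + 1) with he
  have hepos : ∀ n, 0 < e n := fun n => by simp only [he]; positivity
  have hele : ∀ n, e n ≤ ε0 := fun n => by
    simp only [he]
    rw [div_le_iff₀ (by positivity)]
    nlinarith [(Nat.cast_nonneg n : (0 : ℝ) ≤ n)]
  have he0 : Tendsto e atTop (𝓝 0) := by
    have h1 := (tendsto_one_div_add_atTop_nhds_zero_nat (𝕜 := ℝ)).const_mul ε0
    rw [mul_zero] at h1
    refine h1.congr fun n => ?_
    simp only [he]
    ring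
  have hbody : ∀ n, Body (Kc K v (ip v p - e n)) := fun n =>
    Kc_body hK ⟨c, hc, by linarith [hele n]⟩
  have hbet : ∀ n, ∃ b : Fin 3 → V, dt b ≠ 0 ∧
      (∀ u ∈ lat b, u ≠ 0 → ¬ Ov (Kc K v (ip v p - e n)) u) ∧ |dt b| < cd K := by
    intro n
    exact exists_better hK (hbody n) (hloc _ (hbody n) inter_subset_left (hnear _ (hele n)))
      (Kc_vol hK (hbody n) hp (by linarith [hepos n]))
  choose b hb0 hbp hbd using hbet
  have hov : ∀ n, ∃ u ∈ lat (b n), u ≠ 0 ∧ Ov K u := by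
    intro n
    by_contra hcon
    push Not at hcon
    exact absurd (cd_le hK (hb0 n) hcon) (not_le.2 (hbd n))
  choose u hul hu0 huov using hov
  -- a ball in all the bodies
  obtain ⟨ρ, hρ, hball⟩ : ∃ ρ : ℝ, 0 < ρ ∧ ∀ y, dist y c < ρ →
      y ∈ interior K ∧ ip v y < ip v p - ε0 := by
    have hop : IsOpen (interior K ∩ {y | ip v y < ip v p - ε0}) :=
      isOpen_interior.inter (isOpen_lt (ipc v) continuous_const)
    obtain ⟨ρ, hρ, h1⟩ := Metric.isOpen_iff.1 hop c ⟨hc, hcv⟩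
    exact ⟨ρ, hρ, fun y hy => h1 hy⟩
  have hlow : ∀ n, ∀ u ∈ lat (b n), u ≠ 0 → ρ ^ 2 ≤ ip u u := by
    intro n u hu hu0
    refine low (c := c) hρ (fun y hy => ?_) (hbp n u hu hu0)
    obtain ⟨h1, h2⟩ := hball y hy
    exact mem_int_Kc h1 (by linarith [hele n])
  obtain ⟨R, hR, hRu⟩ := ov_bd hK.1
  have hint : ∀ x ∈ interior K, ∃ ε : ℝ, 0 < ε ∧ ∀ᶠ n in atTop, ∀ y, dist y x < ε →
      y ∈ interior (Kc K v (ip v p - e n)) := by
    intro x hx
    have hxv := int_lt hexp hx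
    have hop : IsOpen (interior K ∩ {y | ip v y < (ip v x + ip v p) / 2}) :=
      isOpen_interior.inter (isOpen_lt (ipc v) continuous_const)
    obtain ⟨ε, hε, h1⟩ := Metric.isOpen_iff.1 hop x ⟨hx, (show ip v x < _ by linarith)⟩
    refine ⟨ε, hε, ?_⟩
    have h2 : 0 < (ip v p - ip v x) / 2 := by linarith
    filter_upwards [he0.eventually_lt_const h2] with n hn y hy
    obtain ⟨h3, h4⟩ := h1 hy
    have h5 : ip v y < (ip v x + ip v p) / 2 := h4
    exact mem_int_Kc h3 (by linarith)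
  obtain ⟨φ, b', w, hφ, hb', hbd', hbp', hw, hw0, hlim⟩ := compact hint hb0 hbp hρ hlow
    (fun n => (hbd n).le) hul hu0 hR (fun n => hRu _ (huov n))
  have hdens := densest_of hK hb' hbp' hbd'
  obtain ⟨h1, a, d, hline⟩ := touch hK hp hexp (he0.comp hφ.tendsto_atTop) hlim
    (fun n => huov (φ n)) (fun n => hbp (φ n) _ (hul _) (hu0 _)) (hbp' w hw hw0)
  rcases h1 with h1 | h1
  · exact ⟨b', w, hdens, hw, hw0, h1, a, d, hline⟩
  · refine ⟨b', -w, hdens, Pool.Agent.H349R2.Tet.lat_neg hw, neg_ne_zero.2 hw0, ?_, a - w, d, ?_⟩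
    · rw [sub_neg_eq_add]; exact h1
    · intro x hx hxw
      rw [sub_neg_eq_add] at hxw
      obtain ⟨t, ht⟩ := hline (x + w) hxw (by rw [add_sub_cancel_right]; exact hx)
      refine ⟨t, ?_⟩
      have e1 : x = x + w - w := by abel
      rw [e1, ht]; abel

end Pool.Agent.V8H55.CP
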