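import Pool.Agent.V8H55.MD.Smooth
import Pool.Agent.H349R2.Tet.Basic

/-!
# Reduced bases of lattices in space
-/

namespace Pool.Agent.V8H55.CP

open MeasureTheory Set Filter Topology
open Pool.Agent.H349R2.Tet (V lat dt dt_eq)
open Pool.Agent.V8H55.MD

theorem dt_sq (b : Fin 3 → V) : dt b ^ 2 = ip (b 0) (b 0) * ip (b 1) (b 1) * ip (b 2) (b 2)
    + 2 * ip (b 0) (b 1) * ip (b 0) (b 2) * ip (b 1) (b 2)
    - ip (b 0) (b 0) * ip (b 1) (b 2) ^ 2 - ip (b 1) (b 1) * ip (b 0) (b 2) ^ 2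
    - ip (b 2) (b 2) * ip (b 0) (b 1) ^ 2 := by
  rw [dt_eq]
  unfold ip
  ring

theorem round_sq (x : ℝ) : (x + ((-round x : ℤ) : ℝ)) ^ 2 ≤ 1 / 4 := by
  have h := abs_sub_round x
  have h2 : |x + ((-round x : ℤ) : ℝ)| ≤ 1 / 2 := by
    push_cast
    rwa [← sub_eq_add_neg]
  have h3 := abs_le.1 h2
  nlinarith

/-- the product of the squared lengths of an almost reduced basis -/
theorem red_ineq {b : Fin 3 → V} {ρ : ℝ} (hρ : 0 < ρ) (h0 : ρ ^ 2 ≤ ip (b 0) (b 0))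
    (h01 : ip (b 0) (b 0) ≤ ip (b 1) (b 1)) (h12 : ip (b 1) (b 1) ≤ ip (b 2) (b 2))
    (hr1 : ∀ m : ℤ, ip (b 1) (b 1) - ρ ^ 2 / 4 ≤
      ip (b 1 + (m : ℝ) • b 0) (b 1 + (m : ℝ) • b 0))
    (hr2 : ∀ m n : ℤ, ip (b 2) (b 2) - ρ ^ 2 / 4 ≤
      ip (b 2 + (m : ℝ) • b 0 + (n : ℝ) • b 1) (b 2 + (m : ℝ) • b 0 + (n : ℝ) • b 1)) :
    ip (b 0) (b 0) * ip (b 1) (b 1) * ip (b 2) (b 2) ≤ 8 * dt b ^ 2 := by
  set N0 := ip (b 0) (b 0) with hN0
  set N1 := ip (b 1) (b 1) with hN1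
  set N2 := ip (b 2) (b 2) with hN2
  set g01 := ip (b 0) (b 1) with hg01
  set g02 := ip (b 0) (b 2) with hg02
  set g12 := ip (b 1) (b 2) with hg12
  have hN0p : 0 < N0 := lt_of_lt_of_le (by positivity) h0
  have hN1p : 0 < N1 := lt_of_lt_of_le hN0p h01
  have hN2p : 0 < N2 := lt_of_lt_of_le hN1p h12
  -- second vector
  set μ := g01 / N0 with hμ
  have hμ' : μ * N0 = g01 := div_mul_cancel₀ _ hN0p.ne'
  set S1 := N1 - μ ^ 2 * N0 with hS1
  have e1 : ∀ m : ℝ, ip (b 1 + m • b 0) (b 1 + m • b 0) = S1 + (μ + m) ^ 2 * N0 := by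
    intro m
    have : ip (b 1 + m • b 0) (b 1 + m • b 0) = N1 + 2 * m * g01 + m ^ 2 * N0 := by
      rw [ip_add, ip_smul, ip_comm _ (b 1), ip_comm _ (b 0), ip_add, ip_add, ip_smul, ip_smul,
        ip_comm (b 1) (b 0)]
      ring
    rw [this, hS1, ← hμ']; ring
  have hS1h : N1 / 2 ≤ S1 := by
    have h1 := hr1 (-round μ)
    rw [e1] at h1
    have h2 := round_sq μ
    have h3 : (μ + ((-round μ : ℤ) : ℝ)) ^ 2 * N0 ≤ 1 / 4 * N0 :=
      mul_le_mul_of_nonneg_right h2 hN0p.le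
    linarith
  have hS1p : 0 < S1 := by linarith
  -- third vector
  set ν := (g12 - μ * g02) / S1 with hν
  have hν' : ν * S1 = g12 - μ * g02 := div_mul_cancel₀ _ hS1p.ne'
  set lam := g02 / N0 with hlam
  have hlam' : lam * N0 = g02 := div_mul_cancel₀ _ hN0p.ne'
  set S2 := N2 - ν ^ 2 * S1 - lam ^ 2 * N0 with hS2
  have e2 : ∀ m n : ℝ, ip (b 2 + m • b 0 + n • b 1) (b 2 + m • b 0 + n • b 1) =
      S2 + (ν + n) ^ 2 * S1 + (lam + n * μ + m) ^ 2 * N0 := by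
    intro m n
    have : ip (b 2 + m • b 0 + n • b 1) (b 2 + m • b 0 + n • b 1) =
        N2 + m ^ 2 * N0 + n ^ 2 * N1 + 2 * m * g02 + 2 * n * g12 + 2 * m * n * g01 := by
      simp only [hN0, hN1, hN2, hg01, hg02, hg12, ip, Pi.add_apply, Pi.smul_apply, smul_eq_mul]
      ring
    rw [this]
    have a1 : N1 = S1 + μ ^ 2 * N0 := by rw [hS1]; ring
    have a2 : g12 = ν * S1 + μ * g02 := by rw [hν']; ring
    rw [a1, a2, ← hμ', ← hlam', hS2]
    ring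
  have hS2h : N2 / 4 ≤ S2 := by
    have h1 := hr2 (-round (lam + ((-round ν : ℤ) : ℝ) * μ)) (-round ν)
    rw [e2] at h1
    have h2 := mul_le_mul_of_nonneg_right (round_sq ν) hS1p.le
    have h3 := mul_le_mul_of_nonneg_right (round_sq (lam + ((-round ν : ℤ) : ℝ) * μ)) hN0p.le
    have h4 : S1 ≤ N1 := by
      rw [hS1]; nlinarith [mul_nonneg (sq_nonneg μ) hN0p.le]
    linarith
  have hdet : dt b ^ 2 = N0 * S1 * S2 := by
    rw [dt_sq, ← hN0, ← hN1, ← hN2, ← hg01, ← hg02, ← hg12]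
    have a1 : N1 = S1 + μ ^ 2 * N0 := by rw [hS1]; ring
    have a2 : g12 = ν * S1 + μ * g02 := by rw [hν']; ring
    have a3 : N2 = S2 + ν ^ 2 * S1 + lam ^ 2 * N0 := by rw [hS2]; ring
    rw [a3, a1, a2, ← hμ', ← hlam']
    ring
  rw [hdet]
  have h1 : N1 / 2 * (N2 / 4) ≤ S1 * S2 :=
    mul_le_mul hS1h hS2h (by positivity) hS1p.le
  nlinarith

/-- two bases of the same lattice -/
def Eqv (b b' : Fin 3 → V) : Prop := lat b' = lat b ∧ |dt b'| = |dt b|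

theorem lat_smul_mem (b : Fin 3 → V) (z : Fin 3 → ℤ) : ∑ i, (z i : ℝ) • b i ∈ lat b := ⟨z, rfl⟩

theorem lat_sub_of {b b' : Fin 3 → V} (h : ∀ i, b' i ∈ lat b) : lat b' ⊆ lat b := by
  rintro _ ⟨z, rfl⟩
  rw [Fin.sum_univ_three]
  exact Pool.Agent.H349R2.Tet.lat_add (Pool.Agent.H349R2.Tet.lat_add
    (Pool.Agent.H349R2.Tet.lat_smul _ (h 0)) (Pool.Agent.H349R2.Tet.lat_smul _ (h 1)))
    (Pool.Agent.H349R2.Tet.lat_smul _ (h 2))

theorem mem_lat_self (b : Fin 3 → V) (i : Fin 3) : b i ∈ lat b := by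
  refine ⟨fun j => if j = i then 1 else 0, ?_⟩
  rw [Fin.sum_univ_three]
  fin_cases i <;> simp

theorem eqv_refl (b : Fin 3 → V) : Eqv b b := ⟨rfl, rfl⟩

theorem eqv_trans {a b c : Fin 3 → V} (h : Eqv a b) (k : Eqv b c) : Eqv a c :=
  ⟨k.1.trans h.1, k.2.trans h.2⟩

theorem eqv_perm (b : Fin 3 → V) (σ : Equiv.Perm (Fin 3)) : Eqv b (b ∘ σ) := by
  constructor
  · apply Set.Subset.antisymm
    · exact lat_sub_of fun i => mem_lat_self b (σ i)
    · apply lat_sub_of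
      intro i
      have : b i = (b ∘ σ) (σ.symm i) := by simp
      rw [this]
      exact mem_lat_self _ _
  · unfold dt
    have : Matrix.of (b ∘ σ) = (Matrix.of b).submatrix σ id := rfl
    rw [this, Matrix.det_permute, abs_mul]
    rcases Int.units_eq_one_or (Equiv.Perm.sign σ) with h | h
    · rw [h]; simp
    · rw [h]; simp

theorem eqv_one (b : Fin 3 → V) (m : ℤ) : Eqv b ![b 0, b 1 + (m : ℝ) • b 0, b 2] := by
  have hd : dt ![b 0, b 1 + (m : ℝ) • b 0, b 2] = dt b := by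
    rw [dt_eq, dt_eq]
    simp
    ring
  refine ⟨?_, by rw [hd]⟩
  apply Set.Subset.antisymm
  · apply lat_sub_of
    intro i
    fin_cases i
    · exact mem_lat_self b 0
    · exact Pool.Agent.H349R2.Tet.lat_add (mem_lat_self b 1)
        (Pool.Agent.H349R2.Tet.lat_smul _ (mem_lat_self b 0))
    · exact mem_lat_self b 2
  · set b' : Fin 3 → V := ![b 0, b 1 + (m : ℝ) • b 0, b 2] with hb'
    apply lat_sub_of
    intro i
    fin_cases i
    · exact mem_lat_self b' 0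
    · show b 1 ∈ lat b'
      have e : b 1 = b' 1 + ((-m : ℤ) : ℝ) • b' 0 := by
        rw [hb']; simp
      rw [e]
      exact Pool.Agent.H349R2.Tet.lat_add (mem_lat_self b' 1)
        (Pool.Agent.H349R2.Tet.lat_smul _ (mem_lat_self b' 0))
    · exact mem_lat_self b' 2

theorem eqv_two (b : Fin 3 → V) (m n : ℤ) :
    Eqv b ![b 0, b 1, b 2 + (m : ℝ) • b 0 + (n : ℝ) • b 1] := by
  have hd : dt ![b 0, b 1, b 2 + (m : ℝ) • b 0 + (n : ℝ) • b 1] = dt b := by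
    rw [dt_eq, dt_eq]
    simp
    ring
  refine ⟨?_, by rw [hd]⟩
  apply Set.Subset.antisymm
  · apply lat_sub_of
    intro i
    fin_cases i
    · exact mem_lat_self b 0
    · exact mem_lat_self b 1
    · exact Pool.Agent.H349R2.Tet.lat_add (Pool.Agent.H349R2.Tet.lat_add (mem_lat_self b 2)
        (Pool.Agent.H349R2.Tet.lat_smul _ (mem_lat_self b 0)))
        (Pool.Agent.H349R2.Tet.lat_smul _ (mem_lat_self b 1))
  · set b' : Fin 3 → V := ![b 0, b 1, b 2 + (m : ℝ) • b 0 + (n : ℝ) • b 1] with hb'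
    apply lat_sub_of
    intro i
    fin_cases i
    · exact mem_lat_self b' 0
    · exact mem_lat_self b' 1
    · show b 2 ∈ lat b'
      have e : b 2 = b' 2 + ((-m : ℤ) : ℝ) • b' 0 + ((-n : ℤ) : ℝ) • b' 1 := by
        rw [hb']; simp
        abel
      rw [e]
      exact Pool.Agent.H349R2.Tet.lat_add (Pool.Agent.H349R2.Tet.lat_add (mem_lat_self b' 2)
        (Pool.Agent.H349R2.Tet.lat_smul _ (mem_lat_self b' 0)))
        (Pool.Agent.H349R2.Tet.lat_smul _ (mem_lat_self b' 1))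

/-- sum of the squared lengths -/
noncomputable def ss (b : Fin 3 → V) : ℝ := ip (b 0) (b 0) + ip (b 1) (b 1) + ip (b 2) (b 2)

theorem ss_perm (b : Fin 3 → V) (σ : Equiv.Perm (Fin 3)) : ss (b ∘ σ) = ss b := by
  have h : ∀ c : Fin 3 → V, ss c = ∑ i, ip (c i) (c i) := by
    intro c
    rw [Fin.sum_univ_three]; rfl
  rw [h, h]
  exact Equiv.sum_comp σ (fun i => ip (b i) (b i))

/-- **reduced bases** -/
theorem reduce {b : Fin 3 → V} {ρ : ℝ} (hρ : 0 < ρ) (hdt : dt b ≠ 0)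
    (hmin : ∀ u ∈ lat b, u ≠ 0 → ρ ^ 2 ≤ ip u u) :
    ∃ b' : Fin 3 → V, Eqv b b' ∧ ρ ^ 6 ≤ 8 * dt b ^ 2 ∧
      ∀ i, ρ ^ 4 * ip (b' i) (b' i) ≤ 8 * dt b ^ 2 := by
  set U : Set (Fin 3 → V) := {c | Eqv b c} with hU
  set s0 := sInf (ss '' U) with hs0
  have hbdd : BddBelow (ss '' U) := by
    refine ⟨0, ?_⟩
    rintro _ ⟨c, -, rfl⟩
    unfold ss
    have := ip_self_nonneg (c 0)
    have := ip_self_nonneg (c 1)
    have := ip_self_nonneg (c 2)
    linarith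
  have hne : (ss '' U).Nonempty := ⟨_, b, eqv_refl b, rfl⟩
  obtain ⟨_, ⟨c0, hc0, rfl⟩, hlt⟩ := exists_lt_of_csInf_lt hne
    (show sInf (ss '' U) < s0 + ρ ^ 2 / 4 by rw [← hs0]; linarith [sq_pos_of_pos hρ])
  -- sort
  set σ := Tuple.sort (fun i => ip (c0 i) (c0 i)) with hσ
  have hmono := Tuple.monotone_sort (fun i => ip (c0 i) (c0 i))
  set c := c0 ∘ σ with hc
  have hcU : Eqv b c := eqv_trans hc0 (eqv_perm c0 σ)
  have hcs : ss c < s0 + ρ ^ 2 / 4 := by rw [hc, ss_perm]; exact hlt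
  have h01 : ip (c 0) (c 0) ≤ ip (c 1) (c 1) := hmono (by decide : (0 : Fin 3) ≤ 1)
  have h12 : ip (c 1) (c 1) ≤ ip (c 2) (c 2) := hmono (by decide : (1 : Fin 3) ≤ 2)
  have hdc : dt c ≠ 0 := by
    have := hcU.2
    intro h0
    rw [h0, abs_zero] at this
    exact hdt (abs_eq_zero.1 this.symm)
  have hdsq : dt c ^ 2 = dt b ^ 2 := by rw [← sq_abs, hcU.2, sq_abs]
  have hne0 : ∀ i, c i ≠ 0 := by
    intro i h0
    apply hdc
    rw [dt_eq]
    fin_cases i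
    · have h1 : ∀ j, c 0 j = 0 := fun j => congrFun h0 j
      simp only [h1]; ring
    · have h1 : ∀ j, c 1 j = 0 := fun j => congrFun h0 j
      simp only [h1]; ring
    · have h1 : ∀ j, c 2 j = 0 := fun j => congrFun h0 j
      simp only [h1]; ring
  have hlow : ∀ i, ρ ^ 2 ≤ ip (c i) (c i) := fun i =>
    hmin _ (by rw [← hcU.1]; exact mem_lat_self c i) (hne0 i)
  have hinf : ∀ d : Fin 3 → V, Eqv c d → s0 ≤ ss d := fun d hd =>
    csInf_le hbdd ⟨d, eqv_trans hcU hd, rfl⟩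
  have hr1 : ∀ m : ℤ, ip (c 1) (c 1) - ρ ^ 2 / 4 ≤
      ip (c 1 + (m : ℝ) • c 0) (c 1 + (m : ℝ) • c 0) := by
    intro m
    have h1 := hinf _ (eqv_one c m)
    unfold ss at h1 hcs
    simp only [Matrix.cons_val_zero, Matrix.cons_val_one, Matrix.cons_val] at h1
    linarith
  have hr2 : ∀ m n : ℤ, ip (c 2) (c 2) - ρ ^ 2 / 4 ≤
      ip (c 2 + (m : ℝ) • c 0 + (n : ℝ) • c 1) (c 2 + (m : ℝ) • c 0 + (n : ℝ) • c 1) := by
    intro m n
    have h1 := hinf _ (eqv_two c m n)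
    unfold ss at h1 hcs
    simp only [Matrix.cons_val_zero, Matrix.cons_val_one, Matrix.cons_val] at h1
    linarith
  have hmain := red_ineq hρ (hlow 0) h01 h12 hr1 hr2
  rw [hdsq] at hmain
  have h0p : 0 < ip (c 0) (c 0) := lt_of_lt_of_le (by positivity) (hlow 0)
  have h1p : 0 < ip (c 1) (c 1) := lt_of_lt_of_le (by positivity) (hlow 1)
  have h2p : 0 < ip (c 2) (c 2) := lt_of_lt_of_le (by positivity) (hlow 2)
  have h01' : ρ ^ 2 * ρ ^ 2 ≤ ip (c 0) (c 0) * ip (c 1) (c 1) :=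
    mul_le_mul (hlow 0) (hlow 1) (by positivity) h0p.le
  have hlast : ρ ^ 4 * ip (c 2) (c 2) ≤ 8 * dt b ^ 2 := by
    refine le_trans ?_ hmain
    have := mul_le_mul_of_nonneg_right h01' h2p.le
    calc ρ ^ 4 * ip (c 2) (c 2) = ρ ^ 2 * ρ ^ 2 * ip (c 2) (c 2) := by ring
      _ ≤ _ := this
  have h4 : (0 : ℝ) ≤ ρ ^ 4 := by positivity
  refine ⟨c, hcU, ?_, ?_⟩
  · calc ρ ^ 6 = ρ ^ 4 * ρ ^ 2 := by ring
      _ ≤ ρ ^ 4 * ip (c 2) (c 2) := mul_le_mul_of_nonneg_left (hlow 2) h4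
      _ ≤ _ := hlast
  · intro i
    refine le_trans (mul_le_mul_of_nonneg_left ?_ h4) hlast
    fin_cases i
    · exact h01.trans h12
    · exact h12
    · exact le_rfl

end Pool.Agent.V8H55.CP
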