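import Pool.Agent.V8H55.CP.Comp

/-!
# Cutting off a cap at an exposed point
-/

namespace Pool.Agent.V8H55.CP

open MeasureTheory Set Filter Topology
open Pool.Agent.H349R2.Tet (V lat dt dt_eq Ov)
open Pool.Agent.TH219.DL (Body)
open Pool.Agent.V8H55.MD

/-- `K` with the cap `ip v x > h` cut off -/
def Kc (K : Set V) (v : V) (h : ℝ) : Set V := K ∩ {x | ip v x ≤ h}

theorem mem_int_Kc {K : Set V} {v : V} {h : ℝ} {x : V} (hx : x ∈ interior K) (hxh : ip v x < h) :
    x ∈ interior (Kc K v h) := by
  refine mem_interior.2 ⟨interior K ∩ {y | ip v y < h}, ?_, ?_, ⟨hx, hxh⟩⟩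
  · rintro y ⟨hy, hyh⟩
    exact ⟨interior_subset hy, (show ip v y ≤ h from le_of_lt hyh)⟩
  · exact isOpen_interior.inter (isOpen_lt (ipc v) continuous_const)

/-- caps at an exposed point are small -/
theorem cap_small {K : Set V} (hK : IsCompact K) {p v : V}
    (hexp : ∀ y ∈ K, y ≠ p → ip v y < ip v p) {η : ℝ} (hη : 0 < η) :
    ∃ ε : ℝ, 0 < ε ∧ ∀ x ∈ K, ip v p - ε ≤ ip v x → dist x p < η := by
  set L : Set V := K \ Metric.ball p η with hL
  have hLc : IsCompact L := hK.diff Metric.isOpen_ball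
  rcases L.eq_empty_or_nonempty with he | hne
  · refine ⟨1, one_pos, fun x hx _ => ?_⟩
    by_contra hd
    have : x ∈ L := ⟨hx, fun h => hd (Metric.mem_ball.1 h)⟩
    rw [he] at this
    exact this
  · obtain ⟨z, hz, hzm⟩ := hLc.exists_isMaxOn hne (ipc v).continuousOn
    have hzp : z ≠ p := by
      rintro rfl
      exact hz.2 (Metric.mem_ball_self hη)
    have h1 := hexp z hz.1 hzp
    refine ⟨(ip v p - ip v z) / 2, by linarith, fun x hx hxv => ?_⟩
    by_contra hd
    have hxL : x ∈ L := ⟨hx, fun h => hd (Metric.mem_ball.1 h)⟩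
    have h2 : ip v x ≤ ip v z := hzm hxL
    linarith

/-- a half ball at an inner point of a face -/
theorem half_ball {K : Set V} (hv : Convex ℝ K) {c a1 a2 a3 w : V} {s : ℝ}
    (hc : c ∈ interior K) (h1 : a1 ∈ K) (h2 : a2 ∈ K) (h3 : a3 ∈ K)
    (e1 : ip w a1 = s) (e2 : ip w a2 = s) (e3 : ip w a3 = s) (hcs : ip w c < s)
    (h12 : a2 ≠ a1) (h123 : ∀ t : ℝ, a3 ≠ a1 + t • (a2 - a1)) :
    ∃ ρ : ℝ, 0 < ρ ∧ ∀ x : V, dist x ((1 / 3 : ℝ) • (a1 + a2 + a3)) < ρ → ip w x < s →
      x ∈ interior K := by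
  set q : V := (1 / 3 : ℝ) • (a1 + a2 + a3) with hq
  have hli : LinearIndependent ℝ ![a2 - a1, a3 - a1, c - a1] := by
    rw [Fintype.linearIndependent_iff]
    intro g hg
    rw [Fin.sum_univ_three] at hg
    simp only [Matrix.cons_val_zero, Matrix.cons_val_one, Matrix.cons_val] at hg
    have hw := congrArg (ip w) hg
    rw [ip_add, ip_add, ip_smul, ip_smul, ip_smul, ip_sub, ip_sub, ip_sub, e1, e2, e3] at hw
    have hz : ip w (0 : V) = 0 := by simp [ip]
    rw [hz] at hw
    have g2 : g 2 = 0 := by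
      have : g 2 * (ip w c - s) = 0 := by linarith
      exact (mul_eq_zero.1 this).resolve_right (by linarith)
    rw [g2, zero_smul, add_zero] at hg
    have g1 : g 1 = 0 := by
      by_contra hne
      apply h123 (-(g 0 / g 1))
      have h4 : g 1 • (a3 - a1) = -(g 0 • (a2 - a1)) := by
        rw [eq_neg_iff_add_eq_zero, add_comm]; exact hg
      have h5 : a3 - a1 = -(g 0 / g 1) • (a2 - a1) := by
        calc a3 - a1 = (g 1)⁻¹ • (g 1 • (a3 - a1)) := by
              rw [smul_smul, inv_mul_cancel₀ hne, one_smul]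
          _ = (g 1)⁻¹ • (-(g 0 • (a2 - a1))) := by rw [h4]
          _ = _ := by rw [smul_neg, smul_smul, neg_smul]; congr 2; ring
      rw [← h5]; abel
    rw [g1, zero_smul, add_zero] at hg
    have g0 : g 0 = 0 := by
      rcases smul_eq_zero.1 hg with h | h
      · exact h
      · exact absurd (sub_eq_zero.1 h) h12
    intro i
    fin_cases i
    · exact g0
    · exact g1
    · exact g2
  have hcard : Fintype.card (Fin 3) = Module.finrank ℝ V := by simp
  let B : Module.Basis (Fin 3) ℝ V := basisOfLinearIndependentOfCardEqFinrank hli hcard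
  have hB : ⇑B = ![a2 - a1, a3 - a1, c - a1] :=
    coe_basisOfLinearIndependentOfCardEqFinrank hli hcard
  have hcont : Continuous fun x : V => B.equivFun (x - q) := by
    have h4 : Continuous B.equivFun :=
      LinearMap.continuous_of_finiteDimensional (B.equivFun : V →ₗ[ℝ] (Fin 3 → ℝ))
    exact h4.comp (continuous_id.sub continuous_const)
  have h0 : (fun x : V => B.equivFun (x - q)) q = 0 := by simp
  obtain ⟨ρ, hρ, hρ2⟩ := Metric.continuousAt_iff.1 hcont.continuousAt (1 / 12) (by norm_num)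
  refine ⟨ρ, hρ, fun x hx hxs => ?_⟩
  have h4 := hρ2 hx
  simp only [sub_self, map_zero, dist_zero_right] at h4
  set f := B.equivFun (x - q) with hf
  have hfi : ∀ i, |f i| < 1 / 12 := fun i => (norm_le_pi_norm f i).trans_lt h4
  have hxf : x - q = f 0 • (a2 - a1) + f 1 • (a3 - a1) + f 2 • (c - a1) := by
    have h5 := B.sum_equivFun (x - q)
    rw [← hf, Fin.sum_univ_three, hB] at h5
    simp only [Matrix.cons_val_zero, Matrix.cons_val_one, Matrix.cons_val] at h5
    exact h5.symm
  have f0 := abs_lt.1 (hfi 0)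
  have f1 := abs_lt.1 (hfi 1)
  have f2 := abs_lt.1 (hfi 2)
  -- the coefficient of `c` is positive
  have hpos : 0 < f 2 := by
    have h6 := congrArg (ip w) hxf
    have hwq : ip w q = s := by
      rw [hq, ip_smul, ip_add, ip_add, e1, e2, e3]; ring
    have l1 : ip w (f 0 • (a2 - a1)) = 0 := by rw [ip_smul, ip_sub, e1, e2]; ring
    have l2 : ip w (f 1 • (a3 - a1)) = 0 := by rw [ip_smul, ip_sub, e1, e3]; ring
    have l3 : ip w (f 2 • (c - a1)) = f 2 * (ip w c - s) := by rw [ip_smul, ip_sub, e1]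
    have l4 : ip w (x - q) = ip w x - s := by rw [← hwq]; exact ip_sub _ _ _
    rw [l4, ip_add, ip_add, l1, l2, l3] at h6
    have h7 : f 2 * (ip w c - s) < 0 := by linarith
    by_contra hcon
    push Not at hcon
    nlinarith
  have hl : 0 < 1 - f 2 := by linarith
  set k : V := ((1 / 3 - f 0 - f 1 - f 2) / (1 - f 2)) • a1 + ((1 / 3 + f 0) / (1 - f 2)) • a2
    + ((1 / 3 + f 1) / (1 - f 2)) • a3 with hk
  have hkK : k ∈ K := by
    have h8 := hv.sum_mem (t := (Finset.univ : Finset (Fin 3)))
      (w := ![(1 / 3 - f 0 - f 1 - f 2) / (1 - f 2), (1 / 3 + f 0) / (1 - f 2),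
        (1 / 3 + f 1) / (1 - f 2)]) (z := ![a1, a2, a3]) ?_ ?_ ?_
    · rw [Fin.sum_univ_three] at h8
      exact h8
    · intro i _
      fin_cases i
      · exact div_nonneg (by linarith) hl.le
      · exact div_nonneg (by linarith) hl.le
      · exact div_nonneg (by linarith) hl.le
    · rw [Fin.sum_univ_three]
      simp only [Matrix.cons_val_zero, Matrix.cons_val_one, Matrix.cons_val]
      field_simp
      ring
    · intro i _
      fin_cases i
      · exact h1
      · exact h2
      · exact h3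
  have hxe : x = (1 - f 2) • k + f 2 • c := by
    have h9 : x = q + (f 0 • (a2 - a1) + f 1 • (a3 - a1) + f 2 • (c - a1)) := by
      rw [← hxf]; abel
    have h10 : (1 - f 2) • k = (1 / 3 - f 0 - f 1 - f 2) • a1 + (1 / 3 + f 0) • a2
        + (1 / 3 + f 1) • a3 := by
      rw [hk, smul_add, smul_add, smul_smul, smul_smul, smul_smul, mul_div_cancel₀ _ hl.ne',
        mul_div_cancel₀ _ hl.ne', mul_div_cancel₀ _ hl.ne']
    rw [h10, h9, hq]
    module
  rw [hxe]
  exact hv.combo_self_interior_mem_interior hkK hc hl.le hpos (by ring)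

/-- the limit of the overlaps created by cutting off caps at `p` is a contact at `p`, and the
contact set is contained in a line -/
theorem touch {K : Set V} (hK : Body K) {p v : V} (hp : p ∈ K)
    (hexp : ∀ y ∈ K, y ≠ p → ip v y < ip v p) {e : ℕ → ℝ}
    (he0 : Tendsto e atTop (𝓝 0)) {u : ℕ → V} {w : V} (hlim : Tendsto u atTop (𝓝 w))
    (hov : ∀ n, Ov K (u n)) (hnov : ∀ n, ¬ Ov (Kc K v (ip v p - e n)) (u n)) (hw : ¬ Ov K w) :
    (p - w ∈ K ∨ p + w ∈ K) ∧ ∃ a d : V, ∀ x ∈ K, x - w ∈ K → ∃ t : ℝ, x = a + t • d := by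
  constructor
  · by_contra hcon
    push Not at hcon
    obtain ⟨h1, h2⟩ := hcon
    obtain ⟨r1, hr1, hb1⟩ := Metric.isOpen_iff.1 hK.1.isClosed.isOpen_compl _ h1
    obtain ⟨r2, hr2, hb2⟩ := Metric.isOpen_iff.1 hK.1.isClosed.isOpen_compl _ h2
    set η := min r1 r2 / 2 with hη
    have hη0 : 0 < η := by rw [hη]; positivity
    obtain ⟨ε, hε, hcap⟩ := cap_small hK.1 hexp hη0
    have ev1 : ∀ᶠ n in atTop, dist (u n) w < η := (Metric.tendsto_nhds.1 hlim) η hη0
    have ev2 : ∀ᶠ n in atTop, e n < ε := he0.eventually_lt_const hε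
    obtain ⟨n, hn1, hn2⟩ := (ev1.and ev2).exists
    have hη1 : η + η ≤ r1 := by rw [hη]; linarith [min_le_left r1 r2]
    have hη2 : η + η ≤ r2 := by rw [hη]; linarith [min_le_right r1 r2]
    have k1 : ∀ y, dist y p < η → y - u n ∉ K := by
      intro y hy
      apply hb1
      rw [Metric.mem_ball]
      calc dist (y - u n) (p - w) ≤ dist y p + dist (u n) w := dist_sub_sub_le _ _ _ _
        _ < r1 := by linarith
    have k2 : ∀ y, dist y p < η → y + u n ∉ K := by
      intro y hy
      apply hb2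
      rw [Metric.mem_ball]
      calc dist (y + u n) (p + w) ≤ dist y p + dist (u n) w := dist_add_add_le _ _ _ _
        _ < r2 := by linarith
    obtain ⟨x, hx, hxu⟩ := hov n
    apply hnov n
    refine ⟨x, mem_int_Kc hx ?_, mem_int_Kc hxu ?_⟩
    · by_contra hge
      push Not at hge
      exact k1 x (hcap x (interior_subset hx) (by linarith)) (interior_subset hxu)
    · by_contra hge
      push Not at hge
      apply k2 (x - u n) (hcap _ (interior_subset hxu) (by linarith))
      rw [sub_add_cancel]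
      exact interior_subset hx
  · by_contra hcon
    push Not at hcon
    obtain ⟨a1, h1, h1w, -⟩ := hcon 0 0
    obtain ⟨a2, h2, h2w, h12⟩ := hcon a1 0
    obtain ⟨a3, h3, h3w, h123⟩ := hcon a1 (a2 - a1)
    have h12' : a2 ≠ a1 := by
      have := h12 0
      simpa using this
    -- separation
    set W : Set V := (fun x => x + w) '' interior K with hW
    have hWo : IsOpen W := (Homeomorph.addRight w).isOpenMap _ isOpen_interior
    have hWc : Convex ℝ W := by
      have : W = (fun x => w + x) '' interior K := by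
        apply Set.image_congr
        intro x _
        exact add_comm _ _
      rw [this]
      exact hK.2.1.interior.translate w
    have hdisj : Disjoint (interior K) W := by
      rw [Set.disjoint_left]
      rintro x hx ⟨y, hy, rfl⟩
      apply hw
      refine ⟨y + w, hx, ?_⟩
      rw [add_sub_cancel_right]; exact hy
    obtain ⟨f, s, hf1, hf2⟩ := geometric_hahn_banach_open_open hK.2.1.interior isOpen_interior
      hWc hWo hdisj
    obtain ⟨ω, hω⟩ := exists_ip f
    have g1 : ∀ x ∈ interior K, ip ω x < s := fun x hx => by rw [← hω]; exact hf1 x hx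
    have g2 : ∀ x ∈ interior K, s < ip ω x + ip ω w := fun x hx => by
      rw [← ip_add, ← hω]; exact hf2 _ ⟨x, hx, rfl⟩
    have hcl : ∀ x ∈ K, x ∈ closure (interior K) := fun x hx => by
      rw [hK.2.1.closure_interior_eq_closure_of_nonempty_interior hK.2.2]
      exact subset_closure hx
    have g3 : ∀ x ∈ K, ip ω x ≤ s := by
      intro x hx
      have : closure (interior K) ⊆ {x | ip ω x ≤ s} :=
        closure_minimal (fun y hy => (g1 y hy).le) (isClosed_le (ipc ω) continuous_const)
      exact this (hcl x hx)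
    have g4 : ∀ x ∈ K, s ≤ ip ω x + ip ω w := by
      intro x hx
      have : closure (interior K) ⊆ {x | s ≤ ip ω x + ip ω w} :=
        closure_minimal (fun y hy => (g2 y hy).le)
          (isClosed_le continuous_const ((ipc ω).add continuous_const))
      exact this (hcl x hx)
    have g5 : ∀ a : V, a ∈ K → a - w ∈ K → ip ω a = s := by
      intro a ha haw
      apply le_antisymm (g3 a ha)
      have := g4 _ haw
      rw [ip_sub] at this
      linarith
    obtain ⟨c, hc⟩ := hK.2.2
    have e1 := g5 a1 h1 h1w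
    have e2 := g5 a2 h2 h2w
    have e3 := g5 a3 h3 h3w
    obtain ⟨ρ1, hρ1, hb1⟩ := half_ball hK.2.1 hc h1 h2 h3 e1 e2 e3 (g1 c hc) h12' h123
    obtain ⟨ρ2, hρ2, hb2⟩ := half_ball (w := -ω) (s := ip ω w - s) hK.2.1 hc h1w h2w h3w
      (by rw [ip_neg_left, ip_sub, e1]; ring) (by rw [ip_neg_left, ip_sub, e2]; ring)
      (by rw [ip_neg_left, ip_sub, e3]; ring) (by rw [ip_neg_left]; linarith [g2 c hc])
      (fun h => h12' (sub_left_injective h)) (fun t ht => h123 t (by
        have h4 : a2 - w - (a1 - w) = a2 - a1 := by abel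
        rw [h4] at ht
        have h5 : a3 = a3 - w + w := by abel
        rw [h5, ht]; abel))
    set q : V := (1 / 3 : ℝ) • (a1 + a2 + a3) with hq
    have hq' : (1 / 3 : ℝ) • (a1 - w + (a2 - w) + (a3 - w)) = q - w := by rw [hq]; module
    rw [hq'] at hb2
    -- `q` and `q - w` are not in small caps
    have h13 : a3 ≠ a1 := by
      have := h123 0
      simpa using this
    have hlt3 : ∀ y1 y2 y3 : V, y1 ∈ K → y2 ∈ K → y3 ∈ K → y2 ≠ y1 → y3 ≠ y1 →
        ip v ((1 / 3 : ℝ) • (y1 + y2 + y3)) < ip v p := by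
      intro y1 y2 y3 m1 m2 m3 n2 n3
      have hle : ∀ y ∈ K, ip v y ≤ ip v p := fun y hy => by
        rcases eq_or_ne y p with rfl | h
        · exact le_rfl
        · exact (hexp y hy h).le
      rw [ip_smul, ip_add, ip_add]
      rcases eq_or_ne y1 p with h | h
      · have k2 := hexp y2 m2 (by rw [← h]; exact n2)
        have k3 := hle y3 m3
        have k1 := hle y1 m1
        linarith
      · have k1 := hexp y1 m1 h
        have k2 := hle y2 m2
        have k3 := hle y3 m3
        linarith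
    have hqv : ip v q < ip v p := hlt3 a1 a2 a3 h1 h2 h3 h12' h13
    have hqwv : ip v (q - w) < ip v p := by
      rw [← hq']
      exact hlt3 _ _ _ h1w h2w h3w (fun h => h12' (sub_left_injective h))
        (fun h => h13 (sub_left_injective h))
    -- the common points
    set y : ℕ → V := fun n => q - (1 / 2 : ℝ) • (w - u n) with hy
    have hy1 : Tendsto y atTop (𝓝 q) := by
      have h4 : Tendsto (fun n => q - (1 / 2 : ℝ) • (w - u n)) atTop
          (𝓝 (q - (1 / 2 : ℝ) • (w - w))) :=
        ((hlim.const_sub w).const_smul (1 / 2 : ℝ)).const_sub q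
      rw [sub_self, smul_zero, sub_zero] at h4
      exact h4
    have hy2 : Tendsto (fun n => y n - u n) atTop (𝓝 (q - w)) := hy1.sub hlim
    have ev1 : ∀ᶠ n in atTop, dist (y n) q < ρ1 := (Metric.tendsto_nhds.1 hy1) ρ1 hρ1
    have ev2 : ∀ᶠ n in atTop, dist (y n - u n) (q - w) < ρ2 := (Metric.tendsto_nhds.1 hy2) ρ2 hρ2
    have ev3 : ∀ᶠ n in atTop, ip v (y n) < ip v p - e n := by
      have h4 : Tendsto (fun n => ip v (y n) + e n) atTop (𝓝 (ip v q + 0)) :=
        (((ipc v).tendsto q).comp hy1).add he0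
      rw [add_zero] at h4
      filter_upwards [h4.eventually_lt_const hqv] with n hn
      linarith
    have ev4 : ∀ᶠ n in atTop, ip v (y n - u n) < ip v p - e n := by
      have h4 : Tendsto (fun n => ip v (y n - u n) + e n) atTop (𝓝 (ip v (q - w) + 0)) :=
        (((ipc v).tendsto (q - w)).comp hy2).add he0
      rw [add_zero] at h4
      filter_upwards [h4.eventually_lt_const hqwv] with n hn
      linarith
    obtain ⟨n, n1, n2, n3, n4⟩ := (ev1.and (ev2.and (ev3.and ev4))).exists
    have hwu : ip ω (u n) < ip ω w := by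
      obtain ⟨x, hx, hxu⟩ := hov n
      have k1 := g1 x hx
      have k2 := g2 _ hxu
      rw [ip_sub] at k2
      linarith
    have hqs : ip ω q = s := by
      rw [hq, ip_smul, ip_add, ip_add, e1, e2, e3]; ring
    have hys : ip ω (y n) = s - 1 / 2 * (ip ω w - ip ω (u n)) := by
      simp only [hy]
      have e4 : ip ω (q - (1 / 2 : ℝ) • (w - u n)) = ip ω q - ip ω ((1 / 2 : ℝ) • (w - u n)) :=
        ip_sub _ _ _
      have e5 : ip ω ((1 / 2 : ℝ) • (w - u n)) = 1 / 2 * ip ω (w - u n) := ip_smul _ _ _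
      have e6 : ip ω (w - u n) = ip ω w - ip ω (u n) := ip_sub _ _ _
      rw [e4, e5, e6, hqs]
    apply hnov n
    refine ⟨y n, mem_int_Kc (hb1 _ n1 ?_) n3, mem_int_Kc (hb2 _ n2 ?_) n4⟩
    · rw [hys]; linarith
    · rw [ip_neg_left, ip_sub, hys]; linarith

end Pool.Agent.V8H55.CP
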